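import Pool.Agent.H73.CBE.Stmts

set_option autoImplicit false

namespace Pool.CBE

theorem CHT_thm (h1 : PERStmt) (h2 : DLBStmt) : CHTStmt := by
  intro n z x y hz hx hy hzx hzy
  obtain ⟨_, _, hper, _, _, _⟩ := h1
  obtain ⟨a1, _, a3, _, _⟩ := h2 n z x hz hx
  obtain ⟨b1, _, b3, _, _⟩ := h2 n z y hz hy
  have hx0 : x ≠ 0 := by
    intro h
    rw [h, norm_zero] at hx
    norm_num at hx
  set a : ℂ := (inner ℂ z x : ℂ) with ha
  set b : ℂ := (inner ℂ z y : ℂ) with hb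
  have ha2 : 3 / 4 ≤ ‖a‖ ^ 2 := by nlinarith
  have hb2 : 3 / 4 ≤ ‖b‖ ^ 2 := by nlinarith
  have ha3 : 1 / 2 ≤ ‖a‖ := by nlinarith [norm_nonneg a]
  have hb3 : ‖b‖ ≤ 1 := by nlinarith [norm_nonneg b, sq_nonneg (dl z y)]
  have ha0 : a ≠ 0 := by
    intro h
    rw [h, norm_zero] at ha3
    norm_num at ha3
  have hb0 : b ≠ 0 := by
    intro h
    rw [h, norm_zero] at hb2
    norm_num at hb2
  refine ⟨?_, ?_, ?_⟩
  · rw [inner_sub_right, inner_smul_right, ← ha, inv_mul_cancel₀ ha0,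
      inner_self_eq_norm_sq_to_K, hz]
    simp
  · have h3 : a⁻¹ • x - z = a⁻¹ • perp z x := by
      unfold perp
      rw [smul_sub, smul_smul, hz, ← ha]
      simp [ha0]
    rw [h3, norm_smul, norm_inv]
    have h4 : ‖a‖⁻¹ ≤ 2 := by
      rw [inv_le_comm₀ (by linarith) (by norm_num)]
      linarith
    exact mul_le_mul_of_nonneg_right h4 a3
  · have h5 := hper n x y (b / a) hx0
    have h6 : y - (b / a) • x = b • ((b⁻¹ • y - z) - (a⁻¹ • x - z)) := by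
      rw [smul_sub, smul_sub, smul_sub, smul_smul, smul_smul, mul_inv_cancel₀ hb0, one_smul,
        div_eq_mul_inv]
      abel
    rw [h6, norm_smul] at h5
    have h7 : ‖(b⁻¹ • y - z) - (a⁻¹ • x - z)‖ = ‖(a⁻¹ • x - z) - (b⁻¹ • y - z)‖ :=
      norm_sub_rev _ _
    rw [h7] at h5
    have h8 : ‖b‖ * ‖(a⁻¹ • x - z) - (b⁻¹ • y - z)‖ ≤ 1 * ‖(a⁻¹ • x - z) - (b⁻¹ • y - z)‖ :=
      mul_le_mul_of_nonneg_right hb3 (norm_nonneg _)
    unfold dl
    linarith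

end Pool.CBE
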