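import Pool.Agent.H73.CBE.Stmts

set_option autoImplicit false

namespace Pool.CBE

theorem ORT_thm (_h1 : PERStmt) : ORTStmt := by
  intro n z ζ v _hz hv
  have h : (inner ℂ (perp z ζ) v : ℂ) = inner ℂ ζ v := by
    unfold perp
    rw [inner_sub_left, inner_smul_left, hv, mul_zero, sub_zero]
  rw [← h]
  exact norm_inner_le_norm _ _

end Pool.CBE
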